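import Pool.Agent.helper55.BL.Spec

/-!
# Row STD of project BL
-/

set_option autoImplicit false

namespace Pool.Agent.helper55.BL

open Finset
open scoped Classical
open Pool.Agent.helper61.BM (Clo dg)

theorem STD_dg (V : Type) [Fintype V] (G : SimpleGraph V) (U : Finset V) (w : ↥U) :
    dg (G.comap (Subtype.val : ↥U → V)) w = (U.filter (fun v => G.Adj w v)).card := by
  unfold dg
  rw [← Finset.card_image_of_injective _ (Subtype.val_injective : Function.Injective
    (Subtype.val : ↥U → V))]
  refine congrArg Finset.card ?_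
  ext v
  simp only [mem_image, mem_filter, mem_univ, true_and, SimpleGraph.comap_adj]
  constructor
  · rintro ⟨a, hadj, rfl⟩
    exact ⟨a.2, hadj⟩
  · rintro ⟨ha, hadj⟩
    exact ⟨⟨v, ha⟩, hadj, rfl⟩

theorem STD : STD_stmt := by
  intro V _ G A S F k h hdj hk
  have hsel : ∀ (u : Finset V → V), (∀ E ∈ F, u E ∈ E) → Set.InjOn u (F : Set (Finset V)) := by
    intro u hu E hE E' hE' e
    by_contra hne
    have h1 := hu E hE
    rw [e] at h1
    exact Finset.disjoint_left.mp (hdj E hE E' hE' hne) h1 (hu E' hE')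
  have hmem : ∀ (u : Finset V → V), (∀ E ∈ F, u E ∈ E) → ∀ E ∈ F, u E ∈ S ∪ F.biUnion id :=
    fun u hu E hE => mem_union_right _ (mem_biUnion.mpr ⟨E, hE, hu E hE⟩)
  constructor
  · intro w
    rw [STD_dg]
    by_cases hwS : (w : V) ∈ S
    · have hex : ∀ E : Finset V, ∃ u : V, E ∈ F → u ∈ E ∧ G.Adj u w := by
        intro E
        by_cases hE : E ∈ F
        · have h1 : (w : V) ∈ nbA G A E := by rw [(h E hE).2.1]; exact hwS
          obtain ⟨_, u, hu, huw⟩ := Finset.mem_filter.mp h1
          exact ⟨u, fun _ => ⟨hu, huw⟩⟩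
        · exact ⟨w, fun hc => absurd hc hE⟩
      choose u hu using hex
      have h2 : F.card ≤ ((S ∪ F.biUnion id).filter (fun v => G.Adj w v)).card := by
        apply Finset.card_le_card_of_injOn u
        · intro E hE
          rw [Finset.mem_coe, Finset.mem_filter]
          exact ⟨hmem u (fun E hE => (hu E hE).1) E hE, (hu E hE).2.symm⟩
        · exact hsel u (fun E hE => (hu E hE).1)
      omega
    · have hw := w.2
      rw [mem_union, mem_biUnion] at hw
      obtain ⟨E, hE, hwE⟩ := hw.resolve_left hwS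
      have hwE' : (w : V) ∈ E := hwE
      refine ((h E hE).2.2 w hwE').trans ?_
      unfold dg
      apply Finset.card_le_card
      intro v hv
      rw [Finset.mem_filter] at hv ⊢
      refine ⟨?_, hv.2⟩
      rcases (h E hE).1.nb w hwE' v hv.2 with h3 | h3
      · exact mem_union_right _ (mem_biUnion.mpr ⟨E, hE, h3⟩)
      · apply mem_union_left
        rw [← (h E hE).2.1]
        exact Finset.mem_filter.mpr ⟨h3, w, hwE', hv.2⟩
  · rw [Fintype.card_coe]
    rcases F.eq_empty_or_nonempty with hF | ⟨E₀, hE₀⟩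
    · rw [hF, Finset.card_empty] at hk
      omega
    obtain ⟨u₀, _⟩ := (h E₀ hE₀).1.ne
    have hex : ∀ E : Finset V, ∃ u : V, E ∈ F → u ∈ E := by
      intro E
      by_cases hE : E ∈ F
      · obtain ⟨u, hu⟩ := (h E hE).1.ne
        exact ⟨u, fun _ => hu⟩
      · exact ⟨u₀, fun hc => absurd hc hE⟩
    choose u hu using hex
    exact hk.trans (Finset.card_le_card_of_injOn u (fun E hE => hmem u hu E hE) (hsel u hu))

end Pool.Agent.helper55.BL
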